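import Pool.Agent.Helper65.HR2.Fin
import Pool.Agent.Helper24.Br.Interp
import Pool.Agent.Helper58.CK.BoundFun

/-!
From a mean bound of `exp (s h)` at a real number `s` (checked certificates) to the bound of the
integral means of the class Σ.
-/

set_option autoImplicit false

open Complex MeasureTheory Set Filter
open scoped Real Topology

namespace Pool.Agent.Helper39.SP

open Pool.Agent.Helper65.HR2 Pool.Agent.Helper12.HR2
open Pool.Agent.Helper22.Half (SigmaLog)
open Pool.Agent.Helper58.CK (SigB SigE)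
open Pool.Agent.Helper24.Br (exists_sigmaLog)

/-- the square of the exponential as a power of the derivative -/
theorem norm_exp_sq {w h : ℂ} (e : Complex.exp h = w) (s : ℝ) :
    ‖Complex.exp ((s : ℂ) * h)‖ ^ 2 = ‖w‖ ^ (2 * s) := by
  rw [← e, Complex.norm_exp, Complex.norm_exp, ← Real.exp_nat_mul, ← Real.exp_mul]
  congr 1
  rw [Complex.re_ofReal_mul]
  push_cast
  ring

/-- the means of a real exponent -/
theorem mE_real {ψ h : ℂ → ℂ} (H : SigmaLog ψ h) {R : ℝ} (hR : 1 < R) (s : ℝ) :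
    mE (s : ℂ) R h =
      (2 * π)⁻¹ * (∫ θ in (0:ℝ)..(2 * π), ‖deriv ψ (R * Complex.exp (θ * I))‖ ^ (2 * s)) := by
  rw [mE, one_div]
  congr 1
  apply intervalIntegral.integral_congr
  intro θ _
  refine norm_exp_sq (H.exp_eq _ ?_) s
  rw [norm_mul, Complex.norm_exp_ofReal_mul_I, mul_one, Complex.norm_real, Real.norm_eq_abs,
    abs_of_pos (one_pos.trans hR)]
  exact hR

/-- the bridge -/
theorem sigB_of_ptOK {P : Par} (hP : PtOK P) (hq : P.q = 0) :
    SigB (-(2 * ((P.p : ℝ) / P.sr))) ((P.bn : ℝ) / P.bd) := by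
  obtain ⟨C, hC⟩ := hP
  refine ⟨C, ?_⟩
  intro ψ hψ hinj hb R hR
  obtain ⟨h, H⟩ := exists_sigmaLog hψ hinj hb
  have h1 := hC ψ h H R hR
  have e1 : ((P.p : ℂ) + P.q * Complex.I) / P.sr = (((P.p : ℝ) / P.sr : ℝ) : ℂ) := by
    rw [hq]
    push_cast
    ring
  rw [e1, mE_real H hR] at h1
  rwa [neg_neg]

theorem SigB.sigE {q s : ℝ} (h : SigB q s) : SigE q s := fun e he => h.mono (by linarith)

end Pool.Agent.Helper39.SP
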