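import Pool.Agent.Helper39.SP.Bridge
import Pool.Agent.Helper36.HR2S.M14

/-!
A value of the bound function: `B(-7/5) ≤ 533 / 1000`.
-/

set_option autoImplicit false

namespace Pool.Agent.Helper39.SP

open Pool.Agent.Helper58.CK (SigB SigE)

/-- the power `-7/5` -/
theorem sigB_m14 : SigB (7 / 5) (533 / 1000) := by
  have h := sigB_of_ptOK Pool.Agent.Helper36.HR2S.okm14 rfl
  norm_num at h
  exact h

theorem sigE_m14 : SigE (7 / 5) (533 / 1000) := SigB.sigE sigB_m14

end Pool.Agent.Helper39.SP
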