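import Pool.Agent.Helper39.SP.Bridge
import Pool.Agent.Helper12.HR2.Special

/-!
Two values of the bound function: `B(-1) ≤ 353 / 1250 = .2824` and `B(1) ≤ 133 / 400 = .3325`.
-/

set_option autoImplicit false

namespace Pool.Agent.Helper39.SP

open Pool.Agent.Helper58.CK (SigB SigE)

/-- the power `-1` -/
theorem sigB_one : SigB 1 (353 / 1250) := by
  have h := sigB_of_ptOK Pool.Agent.Helper12.HR2.B.okhm rfl
  norm_num at h
  exact h

/-- the power `1` -/
theorem sigB_neg_one : SigB (-1) (133 / 400) := by
  have h := sigB_of_ptOK Pool.Agent.Helper12.HR2.B.okh1 rfl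
  norm_num at h
  exact h

theorem sigE_one : SigE 1 (353 / 1250) := SigB.sigE sigB_one

theorem sigE_neg_one : SigE (-1) (133 / 400) := SigB.sigE sigB_neg_one

end Pool.Agent.Helper39.SP
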